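import Pool.Agent.Lib.MP_98503b_an.Profile

/-!
Nonexistence of self-similar zero contact angle extinction profiles for the thin-film equation
with strong absorption: the only nonnegative classical solution of the free-boundary problem is
the zero function.
-/

set_option autoImplicit false

namespace Pool.Agent.Results.MP_98503b_an.NoProfile

open Set Filter Topology Pool.Agent.Lib.ThinFilm

/-- For every `z₀ > 0` the classical nonnegative solutions of the free-boundary problem are
exactly the functions vanishing identically on `[0, z₀]`; in particular there is no zero contact
angle extinction profile. -/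
theorem result (z₀ : ℝ) (hz₀ : 0 < z₀) (g : ℝ → ℝ) :
    IsClassicalSolution z₀ g ↔ ∀ z ∈ Icc 0 z₀, g z = 0 :=
  ⟨fun h => h.eq_zero hz₀, isClassicalSolution_of_eq_zero hz₀⟩

end Pool.Agent.Results.MP_98503b_an.NoProfile
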